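import Pool.Agent.H948.SF.Stm

set_option autoImplicit false

namespace Pool.Agent.H695.SF

open MeasureTheory Set
open Pool.Agent.H948.SF

/-- Bernoulli -/
private theorem bern (e : ℝ) (he : 0 < e) (he1 : e ≤ 1) (k D : ℕ) (hk : k ≤ D) :
    (1 - e) ^ k ≤ 1 - k * (e / (1 + D * e)) := by
  have hD : (0 : ℝ) < 1 + D * e := by positivity
  have hk0 : (0 : ℝ) < 1 + k * e := by positivity
  have h1 : 1 + (k : ℝ) * e ≤ (1 + e) ^ k := one_add_mul_le_pow (by linarith) k
  have h2 : (1 - e) ^ k * (1 + e) ^ k ≤ 1 := by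
    rw [← mul_pow]
    exact pow_le_one₀ (by nlinarith) (by nlinarith)
  have h0 : 0 ≤ (1 - e) ^ k := pow_nonneg (by linarith) k
  have h3 : (1 - e) ^ k * (1 + k * e) ≤ 1 := (mul_le_mul_of_nonneg_left h1 h0).trans h2
  have h4 : (1 - e) ^ k ≤ 1 / (1 + k * e) := by rw [le_div_iff₀ hk0]; exact h3
  have h5 : (k : ℝ) * (e / (1 + D * e)) ≤ k * e / (1 + k * e) := by
    rw [mul_div_assoc]
    refine mul_le_mul_of_nonneg_left ?_ (Nat.cast_nonneg k)
    refine div_le_div_of_nonneg_left he.le hk0 ?_
    have : (k : ℝ) ≤ D := by exact_mod_cast hk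
    nlinarith
  have h6 : 1 / (1 + k * e) = 1 - k * e / (1 + k * e) := by
    field_simp
    ring
  linarith

/-- decomposition according to the values of a function with finitely many values -/
private theorem part {Ω β : Type} [MeasurableSpace Ω] [Fintype β] (P : Measure Ω)
    [IsProbabilityMeasure P] (F : Ω → β) (hF : ∀ b, MeasurableSet (F ⁻¹' {b})) (s : Set Ω) :
    P.real s = ∑ b, P.real (F ⁻¹' {b} ∩ s) := by
  have h1 := sum_measure_preimage_singleton (μ := P.restrict s) Finset.univ
    (f := F) (fun y _ => hF y)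
  rw [Finset.coe_univ, Set.preimage_univ, Measure.restrict_apply_univ] at h1
  have h2 : ∀ b, (P.restrict s) (F ⁻¹' {b}) = P (F ⁻¹' {b} ∩ s) := fun b =>
    Measure.restrict_apply (hF b)
  simp_rw [h2] at h1
  unfold Measure.real
  rw [← h1, ENNReal.toReal_sum fun b _ => measure_ne_top P _]

/-- **[GWN]** One generation of a branching process. -/
theorem s_gwn : S_GWN := by
  classical
  intro L Ω _ _ P _ X Y e he hX hY hind hYe hsum
  set D : ℕ := Fintype.card L with hD
  have hDe : (0 : ℝ) < 1 + D * e := by positivity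
  -- there is an element
  have hne : Nonempty L := by
    by_contra h
    rw [not_nonempty_iff] at h
    rw [Finset.univ_eq_empty, Finset.sum_empty, nonpos_iff_eq_zero, ENNReal.ofReal_eq_zero] at hsum
    linarith
  have he1 : e ≤ 1 := by
    obtain ⟨w⟩ := hne
    have := (hYe w).trans prob_le_one
    rwa [ENNReal.ofReal_le_one] at this
  set F : Ω → Set L := fun ω => {w | ω ∈ X w} with hF
  have hFm : ∀ A, MeasurableSet (F ⁻¹' {A}) := by
    intro A
    have : F ⁻¹' {A} = ⋂ w, (if w ∈ A then X w else (X w)ᶜ) := by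
      ext ω
      simp only [hF, Set.mem_preimage, Set.mem_singleton_iff, Set.mem_iInter]
      rw [Set.ext_iff]
      refine forall_congr' fun w => ?_
      by_cases hw : w ∈ A
      · simp [hw]
      · simp [hw]
    rw [this]
    refine MeasurableSet.iInter fun w => ?_
    split_ifs
    · exact hX w
    · exact (hX w).compl
  set p : Set L → ℝ := fun A => P.real (F ⁻¹' {A}) with hp
  have hp0 : ∀ A, 0 ≤ p A := fun A => measureReal_nonneg
  have hp1 : ∑ A, p A = 1 := by
    have := part P F hFm Set.univ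
    rw [probReal_univ] at this
    rw [this]
    refine Finset.sum_congr rfl fun A _ => ?_
    rw [Set.inter_univ]
  -- the mean number of elements
  have hXs : ∀ w, P.real (X w) = ∑ A, (if w ∈ A then p A else 0) := by
    intro w
    rw [part P F hFm (X w)]
    refine Finset.sum_congr rfl fun A _ => ?_
    by_cases hw : w ∈ A
    · rw [if_pos hw, hp]
      congr 1
      refine Set.inter_eq_left.2 fun ω hω => ?_
      have : F ω = A := hω
      rw [← this] at hw
      exact hw
    · rw [if_neg hw]
      have : F ⁻¹' {A} ∩ X w = ∅ := by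
        rw [Set.eq_empty_iff_forall_notMem]
        rintro ω ⟨h1, h2⟩
        have h1' : F ω = A := h1
        rw [← h1'] at hw
        exact hw h2
      rw [this, measureReal_empty]
  set ca : Set L → ℕ := fun A => (Finset.univ.filter (fun w => w ∈ A)).card with hca
  have hmean : ∑ w, P.real (X w) = ∑ A, p A * ca A := by
    simp_rw [hXs]
    rw [Finset.sum_comm]
    refine Finset.sum_congr rfl fun A _ => ?_
    rw [← Finset.sum_filter, Finset.sum_const, nsmul_eq_mul, mul_comm]
  have hmean1 : 1 + D * e ≤ ∑ w, P.real (X w) := by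
    have h1 : (∑ w, P (X w)) = ENNReal.ofReal (∑ w, P.real (X w)) := by
      rw [ENNReal.ofReal_sum_of_nonneg fun w _ => measureReal_nonneg]
      exact Finset.sum_congr rfl fun w _ => (ofReal_measureReal (measure_ne_top P _)).symm
    rw [h1] at hsum
    exact (ENNReal.ofReal_le_ofReal_iff (Finset.sum_nonneg fun w _ => measureReal_nonneg)).1 hsum
  -- the event
  set G : Set Ω := {ω | ∃ w, ω ∈ X w ∧ ω ∈ Y w} with hG
  have hGm : MeasurableSet G := by
    have : G = ⋃ w, X w ∩ Y w := by
      ext ω
      simp [hG]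
    rw [this]
    exact MeasurableSet.iUnion fun w => (hX w).inter (hY w)
  have hYc : ∀ w, P.real (Y w)ᶜ ≤ 1 - e := by
    intro w
    rw [probReal_compl_eq_one_sub (hY w)]
    have h1 : e ≤ P.real (Y w) := (ENNReal.ofReal_le_iff_le_toReal (measure_ne_top P _)).1 (hYe w)
    linarith
  have hbad : ∀ A, P.real (F ⁻¹' {A} ∩ Gᶜ) ≤ p A * (1 - ca A * (e / (1 + D * e))) := by
    intro A
    have h1 : F ⁻¹' {A} ∩ Gᶜ = {ω | {w | ω ∈ X w} = A} ∩ ⋂ w ∈ A, (Y w)ᶜ := by
      ext ω
      constructor
      · rintro ⟨h1, h2⟩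
        have h1' : F ω = A := h1
        refine ⟨h1', ?_⟩
        rw [Set.mem_iInter₂]
        intro w hw hYw
        rw [← h1'] at hw
        exact h2 ⟨w, hw, hYw⟩
      · rintro ⟨h1, h2⟩
        have h1' : F ω = A := h1
        refine ⟨h1, ?_⟩
        rintro ⟨w, hw, hYw⟩
        rw [Set.mem_iInter₂] at h2
        exact h2 w (by rw [← h1']; exact hw) hYw
    have h2 : P.real (F ⁻¹' {A} ∩ Gᶜ) = p A * ∏ w : L, (if w ∈ A then P.real (Y w)ᶜ else 1) := by
      rw [h1]
      unfold Measure.real
      rw [hind A A, ENNReal.toReal_mul, ENNReal.toReal_prod]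
      congr 1
      refine Finset.prod_congr rfl fun w _ => ?_
      split_ifs <;> simp
    have h3 : ∏ w : L, (if w ∈ A then P.real (Y w)ᶜ else 1) ≤ (1 - e) ^ ca A := by
      rw [← Finset.prod_filter, hca, ← Finset.prod_const]
      exact Finset.prod_le_prod (fun w _ => measureReal_nonneg) fun w _ => hYc w
    rw [h2]
    refine mul_le_mul_of_nonneg_left (h3.trans ?_) (hp0 A)
    refine bern e he he1 _ D ?_
    exact (Finset.card_le_univ _)
  have hfin : P.real Gᶜ ≤ 1 - e := by
    rw [part P F hFm Gᶜ]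
    calc ∑ A, P.real (F ⁻¹' {A} ∩ Gᶜ) ≤ ∑ A, p A * (1 - ca A * (e / (1 + D * e))) :=
          Finset.sum_le_sum fun A _ => hbad A
      _ = ∑ A, p A - (∑ A, p A * ca A) * (e / (1 + D * e)) := by
          rw [Finset.sum_mul, ← Finset.sum_sub_distrib]
          exact Finset.sum_congr rfl fun A _ => by ring
      _ ≤ 1 - (1 + D * e) * (e / (1 + D * e)) := by
          rw [hp1, ← hmean]
          have : 0 ≤ e / (1 + D * e) := by positivity
          have := mul_le_mul_of_nonneg_right hmean1 this
          linarith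
      _ = 1 - e := by
          rw [mul_div_cancel₀ _ hDe.ne']
  rw [probReal_compl_eq_one_sub hGm] at hfin
  exact (ENNReal.ofReal_le_iff_le_toReal (measure_ne_top P _)).2 (by
    have : e ≤ P.real G := by linarith
    exact this)

end Pool.Agent.H695.SF
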